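import Pool.Agent.Lib.H92Q.TabOK
import Pool.Agent.Lib.H60CD.Cert

/-!
# The certificate in the form of `H60CD.CurveCert`, and the root
-/

open Set Pool.Agent.Lib.H59Q

namespace Pool.Agent.Lib.H92Q

theorem sum_C_list (K : ℕ) (f : ℕ → ℕ) :
    ∑ a ∈ C K, f a = ((cd K).map (fun D => f (2 * D))).sum := by
  induction K generalizing f with
  | zero => simp [C, Cd, cd]
  | succ K ih =>
    rw [C, sum_Cd_succ C_digits, cd, sum_map_flatMap]
    have h1 : ∀ x : ℕ, ∑ d ∈ ({0, 2} : Finset ℕ), f (3 * x + d) = f (3 * x) + f (3 * x + 2) := by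
      intro x
      rw [Finset.sum_insert (by decide), Finset.sum_singleton, add_zero]
    rw [Finset.sum_congr rfl fun x _ => h1 x]
    have h2 := ih (fun x => f (3 * x) + f (3 * x + 2))
    rw [C] at h2
    rw [h2]
    congr 2
    funext D
    simp only [List.map_cons, List.map_nil, List.sum_cons, List.sum_nil, add_zero]
    congr 2 <;> ring

theorem sum_C_C (K : ℕ) (f : ℕ → ℕ → ℕ) :
    ∑ p ∈ C K ×ˢ C K, f p.1 p.2 = dsum K (fun D E => f (2 * D) (2 * E)) := by
  rw [Finset.sum_product, sum_C_list K (fun a => ∑ y ∈ C K, f a y)]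
  unfold dsum
  congr 2
  funext D
  exact sum_C_list K _

/-- The weights. -/
def vv (c : ℤ) : ℕ := wz 16 tabW c

/-- `CurveCert` from `Cert`. -/
theorem curveCert_of {t W M K A q R num den V : ℕ} (h : Cert t W M K A q R num den V)
    (hK : 0 < K) (hden : 0 < den) (hnum : den < num) {u₁ u₂ : ℝ} (hu₁ : 1 / 3 ≤ u₁)
    (hu : u₁ < u₂) (hu₂ : u₂ ≤ 3) (n : ℕ) (hn : ∀ c, n ≤ c → fld t W c = 0)
    (hwin : ∀ D ∈ cd K, (((A * D + (q - 1)) / q : ℕ) : ℝ) - 1 ≤ R * (u₁ * (2 * D)) ∧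
      R * (u₂ * (2 * D)) ≤ (((A * D + (q - 1)) / q : ℕ) : ℝ)) :
    H60CD.CurveCert K u₁ u₂ (1 / (R : ℝ)) (1 / (R : ℝ)) ((num : ℝ) / den) (wz t W) where
  K_pos := hK
  hu₁ := hu₁
  hu := hu
  hu₂ := hu₂
  ρ_pos := by
    have : (0 : ℝ) < R := by exact_mod_cast h.rpos
    positivity
  σ_pos := by
    have : (0 : ℝ) < R := by exact_mod_cast h.rpos
    positivity
  one_lt := by
    have h1 : (0 : ℝ) < den := by exact_mod_cast hden
    rw [one_lt_div h1]
    exact_mod_cast hnum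
  fin := by
    refine (Set.finite_Icc (0 : ℤ) (n : ℤ)).subset fun c hc => ?_
    rw [Function.mem_support, wz] at hc
    rw [Set.mem_Icc]
    split_ifs at hc with h0
    · refine ⟨h0, ?_⟩
      by_contra hcon
      push Not at hcon
      exact hc (hn _ (by omega))
    · exact absurd rfl hc
  step := by
    intro tt htt b s hs
    have hR : (0 : ℝ) < R := by exact_mod_cast h.rpos
    have hd : (0 : ℝ) < den := by exact_mod_cast hden
    obtain ⟨m, hm, hsum⟩ := h.step (fun D => tt (2 * D) * (2 * D)) (fun D hD => by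
      obtain ⟨w1, w2⟩ := hwin D hD
      obtain ⟨t1, t2⟩ := htt (2 * D)
      have hD0 : (0 : ℝ) ≤ 2 * D := by positivity
      constructor
      · refine w1.trans (mul_le_mul_of_nonneg_left ?_ hR.le)
        exact mul_le_mul_of_nonneg_right t1 hD0
      · refine le_trans (mul_le_mul_of_nonneg_left ?_ hR.le) w2
        exact mul_le_mul_of_nonneg_right t2 hD0) b
    have hfl : ∀ y : ℝ, ⌊y / (1 / (R : ℝ))⌋ = ⌊R * y⌋ := by
      intro y
      congr 1
      field_simp
    have h1 : num * wz t W ⌊R * b⌋ ≤ den * ∑ p ∈ C K ×ˢ C K,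
        wz t W ⌊((3 : ℝ) ^ K * b + s - p.2 - tt p.1 * p.1) / (1 / (R : ℝ))⌋ := by
      refine hsum.trans (Nat.mul_le_mul_left _ ?_)
      rw [sum_C_C K (fun a b' => wz t W ⌊((3 : ℝ) ^ K * b + s - b' - tt a * a) / (1 / (R : ℝ))⌋)]
      refine dsum_mono _ _ _ fun D hD E hE => ?_
      rw [hfl]
      refine hm D hD E hE _ ?_
      push_cast
      have e1 : (3 : ℝ) ^ K * b + s - 2 * E - tt (2 * D) * (2 * D) -
          (3 ^ K * b - tt (2 * D) * (2 * D) - 2 * E) = s := by ring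
      rw [e1]
      exact hs
    rw [hfl]
    have h2 : (num : ℝ) * (wz t W ⌊R * b⌋ : ℝ) ≤ den * ∑ p ∈ C K ×ˢ C K,
        (wz t W ⌊((3 : ℝ) ^ K * b + s - p.2 - tt p.1 * p.1) / (1 / (R : ℝ))⌋ : ℝ) := by
      exact_mod_cast h1
    rw [div_mul_eq_mul_div, div_le_iff₀ hd, mul_comm _ (den : ℝ)]
    exact h2

/-- decidable form of the slope window -/
def winB (K A q R U1 U2 B : ℕ) : Bool :=
  (cd K).all (fun D => Nat.ble (((A * D + (q - 1)) / q) * B) (R * (U1 * (2 * D)) + B) &&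
    Nat.ble (R * (U2 * (2 * D))) (((A * D + (q - 1)) / q) * B))

theorem winB_sound (K A q R U1 U2 B : ℕ) (hB : 0 < B) (h : winB K A q R U1 U2 B = true) :
    ∀ D ∈ cd K, (((A * D + (q - 1)) / q : ℕ) : ℝ) - 1 ≤ R * ((U1 : ℝ) / B * (2 * D)) ∧
      R * ((U2 : ℝ) / B * (2 * D)) ≤ (((A * D + (q - 1)) / q : ℕ) : ℝ) := by
  intro D hD
  have hBr : (0 : ℝ) < B := by exact_mod_cast hB
  unfold winB at h
  rw [List.all_eq_true] at h
  have h1 := h D hD
  rw [Bool.and_eq_true] at h1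
  obtain ⟨ha, hb⟩ := h1
  have ha' := Nat.le_of_ble_eq_true ha
  have hb' := Nat.le_of_ble_eq_true hb
  set s := (A * D + (q - 1)) / q
  have ha'' : (s : ℝ) * B ≤ R * (U1 * (2 * D)) + B := by exact_mod_cast ha'
  have hb'' : (R : ℝ) * (U2 * (2 * D)) ≤ s * B := by exact_mod_cast hb'
  constructor
  · have e1 : (R : ℝ) * ((U1 : ℝ) / B * (2 * D)) = R * (U1 * (2 * D)) / B := by
      field_simp
    rw [e1, le_div_iff₀ hBr]
    linarith
  · have e1 : (R : ℝ) * ((U2 : ℝ) / B * (2 * D)) = R * (U2 * (2 * D)) / B := by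
      field_simp
    rw [e1, div_le_iff₀ hBr]
    exact hb''

theorem win_ok : winB 5 281725234848 1000000 59049 2385520793 2385520795 1000000000 = true := by
  decide +kernel

/-- **The certificate.** -/
theorem curveCert : H60CD.CurveCert 5 (((2385520793 : ℕ) : ℝ) / (1000000000 : ℕ))
    (((2385520795 : ℕ) : ℝ) / (1000000000 : ℕ)) (1 / ((59049 : ℕ) : ℝ)) (1 / ((59049 : ℕ) : ℝ))
    (((3 : ℕ) : ℝ) / (2 : ℕ)) vv :=
  curveCert_of cert (by norm_num) (by norm_num) (by norm_num) (by norm_num) (by norm_num)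
    (by norm_num) 200704 (fun c hc => by
      obtain ⟨w1, -⟩ := bndB_sound 16 10 200704 tabW (by norm_num) (by norm_num) tabW_bnd
      exact fld_zero 16 200704 tabW w1 c hc)
    (winB_sound 5 281725234848 1000000 59049 2385520793 2385520795 1000000000 (by norm_num) win_ok)

/-! ### The root -/

/-- decidable form of `CN` -/
def cnB : ℕ → ℕ → Bool
  | 0, a => Nat.beq a 0
  | n + 1, a => (Nat.beq (a % 3) 0 || Nat.beq (a % 3) 2) && cnB n (a / 3)

theorem cnB_sound (n : ℕ) : ∀ a, cnB n a = true → H60CD.CN n a := by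
  induction n with
  | zero =>
    intro a h
    have h1 : a = 0 := Nat.eq_of_beq_eq_true h
    rw [h1]
    exact H60CD.CN.zero
  | succ n ih =>
    intro a h
    rw [cnB, Bool.and_eq_true, Bool.or_eq_true] at h
    obtain ⟨h1, h2⟩ := h
    have h3 := ih _ h2
    have h4 := Nat.div_add_mod a 3
    rcases h1 with h1 | h1
    · have h5 : a % 3 = 0 := Nat.eq_of_beq_eq_true h1
      have h6 : a = 3 * (a / 3) := by omega
      rw [h6]
      exact H60CD.CN.s0 h3
    · have h5 : a % 3 = 2 := Nat.eq_of_beq_eq_true h1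
      have h6 : a = 3 * (a / 3) + 2 := by omega
      rw [h6]
      exact H60CD.CN.s2 h3

theorem root_a : H60CD.CN 21 2680052348 := cnB_sound _ _ (by decide +kernel)

theorem root_b : H60CD.CN (21 + 2) 91000774676 := cnB_sound _ _ (by decide +kernel)

theorem root_window : H60CD.Window 2 (((2385520793 : ℕ) : ℝ) / (1000000000 : ℕ))
    (((2385520795 : ℕ) : ℝ) / (1000000000 : ℕ)) (((2680052348 : ℕ) : ℝ) / 3 ^ 21)
    ((((2680052348 : ℕ) : ℝ) + 1) / 3 ^ 21) :=
  H60CD.window_of (by norm_num) (by norm_num) (by norm_num) (by norm_num) (by norm_num)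

theorem root_cell : ⌊H60CD.nu 2 21 2680052348 91000774676 / (1 / ((59049 : ℕ) : ℝ))⌋ =
    ((126770 : ℕ) : ℤ) :=
  H60CD.floor_nu (by norm_num) (by norm_num) (by norm_num)

theorem root_weight : Nat.ble 1 (fld 16 tabW 126770) = true := by decide +kernel

theorem root_vv : 1 ≤ vv ((126770 : ℕ) : ℤ) := by
  have h1 := Nat.le_of_ble_eq_true root_weight
  unfold vv wz
  rw [if_pos (by positivity)]
  exact h1

/-- **The root is good.** -/
theorem root_good : H60CD.GoodV 2 (1 / ((59049 : ℕ) : ℝ)) (((2680052348 : ℕ) : ℝ) / 3 ^ 21)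
    ((((2680052348 : ℕ) : ℝ) + 1) / 3 ^ 21) vv 21 2680052348 91000774676 := by
  refine ⟨le_rfl, le_rfl, ?_⟩
  rw [root_cell]
  exact root_vv

end Pool.Agent.Lib.H92Q
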