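import Pool.Agent.Lib.H92Q.Tab

/-!
# Checks of the blocks 84 to 111
-/

namespace Pool.Agent.Lib.H92Q

set_option maxRecDepth 100000

theorem okn3 : okn 84 28 = true := by decide +kernel

end Pool.Agent.Lib.H92Q
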