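import Pool.Agent.Lib.H92Q.Pack

/-!
# The checker for a table of weights, `K` ternary levels at once

`fld t W c`: the field number `c` (of `t` bits) of `W`; `sft t W s i`: the field `i - s` (zero if
`i < s`).
-/

open Finset

namespace Pool.Agent.Lib.H92Q

/-- the field number `c` -/
def fld (t W c : ℕ) : ℕ := W / 2 ^ (t * c) % 2 ^ t

/-- the field number `i - s`, zero for `i < s` -/
def sft (t W s i : ℕ) : ℕ := if s ≤ i then fld t W (i - s) else 0

/-- the fields `sft t W s i`, `i0 ≤ i < i0 + L` -/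
def win (t W L i0 s : ℕ) : ℕ :=
  bif Nat.ble s i0 then (W >>> (t * (i0 - s))) &&& (2 ^ (t * L) - 1)
  else (W <<< (t * (s - i0))) &&& (2 ^ (t * L) - 1)

theorem fld_lt (t W c : ℕ) : fld t W c < 2 ^ t := Nat.mod_lt _ (by positivity)

theorem sft_lt (t W s i : ℕ) : sft t W s i < 2 ^ t := by
  unfold sft
  split_ifs
  · exact fld_lt _ _ _
  · positivity

theorem enc_fld (t n x : ℕ) (hx : x < 2 ^ (t * n)) : enc t (fld t x) n = x := enc_digits t n x hx

theorem fld_zero (t n x : ℕ) (hx : x < 2 ^ (t * n)) (c : ℕ) (hc : n ≤ c) : fld t x c = 0 := by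
  unfold fld
  have h1 : x < 2 ^ (t * c) := lt_of_lt_of_le hx
    (Nat.pow_le_pow_right (by norm_num) (Nat.mul_le_mul_left _ hc))
  rw [Nat.div_eq_of_lt h1, Nat.zero_mod]

theorem mod_fld (t L y i : ℕ) (hi : i < L) :
    y % 2 ^ (t * L) / 2 ^ (t * i) % 2 ^ t = y / 2 ^ (t * i) % 2 ^ t := by
  have h7 : 2 ^ (t * L) = 2 ^ (t * i) * (2 ^ t * 2 ^ (t * (L - i - 1))) := by
    rw [← pow_add, ← pow_add]
    congr 1
    obtain ⟨d, rfl⟩ : ∃ d, L = i + 1 + d := ⟨L - i - 1, by omega⟩
    have : i + 1 + d - i - 1 = d := by omega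
    rw [this]
    ring
  rw [h7, Nat.mod_mul_right_div_self, Nat.mod_mul_right_mod]

theorem win_eq (t W L i0 s : ℕ) : win t W L i0 s = enc t (fun i => sft t W s (i0 + i)) L := by
  have hpos : 0 < 2 ^ (t * L) := by positivity
  have key : ∀ y, (∀ i < L, y / 2 ^ (t * i) % 2 ^ t = sft t W s (i0 + i)) →
      y &&& (2 ^ (t * L) - 1) = enc t (fun i => sft t W s (i0 + i)) L := by
    intro y hy
    rw [Nat.and_two_pow_sub_one_eq_mod, ← enc_digits t L (y % 2 ^ (t * L)) (Nat.mod_lt _ hpos)]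
    refine enc_congr _ _ _ _ fun i hi => ?_
    rw [mod_fld t L y i hi, hy i hi]
  unfold win
  rcases Nat.lt_or_ge i0 s with h | h
  · have hb : Nat.ble s i0 = false := by
      rw [← Bool.not_eq_true, Nat.ble_eq]
      omega
    rw [hb, cond_false]
    refine key _ fun i _ => ?_
    rw [Nat.shiftLeft_eq]
    unfold sft
    rcases Nat.lt_or_ge (i0 + i) s with h1 | h1
    · rw [if_neg (by omega)]
      obtain ⟨d, hd⟩ : ∃ d, s - i0 = i + 1 + d := ⟨s - i0 - i - 1, by omega⟩
      have h2 : 2 ^ (t * (s - i0)) = 2 ^ (t * i) * (2 ^ t * 2 ^ (t * d)) := by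
        rw [hd, ← pow_add, ← pow_add]
        congr 1
        ring
      have h3 : W * 2 ^ (t * (s - i0)) = 2 ^ (t * i) * (2 ^ t * (W * 2 ^ (t * d))) := by
        rw [h2]
        ring
      rw [h3, Nat.mul_div_cancel_left _ (by positivity), Nat.mul_mod_right]
    · rw [if_pos h1]
      unfold fld
      obtain ⟨d, hd⟩ : ∃ d, i = s - i0 + d := ⟨i - (s - i0), by omega⟩
      have h2 : 2 ^ (t * i) = 2 ^ (t * (s - i0)) * 2 ^ (t * d) := by
        rw [hd, ← pow_add]
        congr 1
        ring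
      have h3 : i0 + i - s = d := by omega
      rw [h2, h3, ← Nat.div_div_eq_div_mul, Nat.mul_div_cancel _ (by positivity)]
  · have hb : Nat.ble s i0 = true := by
      rw [Nat.ble_eq]
      exact h
    rw [hb, cond_true]
    refine key _ fun i _ => ?_
    rw [Nat.shiftRight_eq_div_pow, Nat.div_div_eq_div_mul, ← pow_add]
    unfold sft fld
    rw [if_pos (by omega)]
    congr 3
    have : i0 + i - s = (i0 - s) + i := by omega
    rw [this]
    ring

/-- the sum of the windows with shifts in `l` -/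
def gsum (t W L i0 : ℕ) (l : List ℕ) : ℕ := l.foldr (fun s acc => win t W L i0 s + acc) 0

theorem gsum_eq (t W L i0 : ℕ) (l : List ℕ) :
    gsum t W L i0 l = enc t (fun i => (l.map (fun s => sft t W s (i0 + i))).sum) L := by
  induction l with
  | nil => simp [gsum, enc]
  | cons s l ih =>
    have h1 : gsum t W L i0 (s :: l) = win t W L i0 s + gsum t W L i0 l := rfl
    rw [h1, ih, win_eq, enc_add]
    refine enc_congr _ _ _ _ fun i _ => ?_
    rw [List.map_cons, List.sum_cons]

theorem sum_lt_of (l : List ℕ) (f : ℕ → ℕ) (b : ℕ) (h : ∀ s ∈ l, f s ≤ b) :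
    (l.map f).sum ≤ l.length * b := by
  induction l with
  | nil => simp
  | cons s l ih =>
    rw [List.map_cons, List.sum_cons, List.length_cons]
    have h1 := h s (by simp)
    have h2 := ih fun x hx => h x (by simp [hx])
    calc f s + (l.map f).sum ≤ b + l.length * b := by omega
      _ = (l.length + 1) * b := by ring

/-- comparison, field by field: `y ≤ x` -/
def cmpB (t n x y : ℕ) : Bool :=
  Nat.ble y x && Nat.beq (((x - y) >>> (t - 1)) &&& mask 1 t n) 0

theorem cmpB_sound (t n x y : ℕ) (ht : 0 < t) (hx : x < 2 ^ (t * n)) (hy : y < 2 ^ (t * n))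
    (hyb : ∀ c < n, fld t y c < 2 ^ (t - 1)) (h : cmpB t n x y = true) (c : ℕ) :
    fld t y c ≤ fld t x c := by
  rcases Nat.lt_or_ge c n with hc | hc
  · unfold cmpB at h
    simp only [Bool.and_eq_true] at h
    obtain ⟨ha, hb⟩ := h
    have ha' := Nat.le_of_ble_eq_true ha
    have hb' := Nat.eq_of_beq_eq_true hb
    refine enc_le_of_sub t n ht (fld t x) (fld t y) (fun c _ => fld_lt _ _ _) hyb ?_ ?_ c hc
    · rw [enc_fld t n x hx, enc_fld t n y hy]
      exact ha'
    · rw [enc_fld t n x hx, enc_fld t n y hy]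
      exact hb'
  · rw [fld_zero t n y hy c hc]
    exact Nat.zero_le _

/-- all fields have at most `v` bits -/
def bndB (t v n x : ℕ) : Bool :=
  Nat.blt x (2 ^ (t * n)) && Nat.beq ((x >>> v) &&& mask (t - v) t n) 0

theorem bndB_sound (t v n x : ℕ) (ht : 0 < t) (hv : v ≤ t) (h : bndB t v n x = true) :
    x < 2 ^ (t * n) ∧ ∀ c, fld t x c < 2 ^ v := by
  unfold bndB at h
  simp only [Bool.and_eq_true] at h
  obtain ⟨ha, hb⟩ := h
  have ha' : x < 2 ^ (t * n) := Nat.le_of_ble_eq_true ha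
  have hb' := Nat.eq_of_beq_eq_true hb
  refine ⟨ha', fun c => ?_⟩
  rcases Nat.lt_or_ge c n with hc | hc
  · rw [land_mask (t - v) t n _ ht (by omega)] at hb'
    have h2 := enc_field t (fun c => x >>> v / 2 ^ (t * c) % 2 ^ (t - v)) n (fun c _ =>
      lt_of_lt_of_le (Nat.mod_lt _ (by positivity)) (Nat.pow_le_pow_right (by norm_num)
        (by omega))) c hc
    rw [hb'] at h2
    have h1 : x >>> v / 2 ^ (t * c) % 2 ^ (t - v) = 0 := by
      simpa using h2.symm
    rw [Nat.shiftRight_eq_div_pow, Nat.div_div_eq_div_mul, mul_comm (2 ^ v),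
      ← Nat.div_div_eq_div_mul] at h1
    unfold fld
    have h3 : 2 ^ t = 2 ^ v * 2 ^ (t - v) := by
      rw [← pow_add]
      congr 1
      omega
    rw [h3, Nat.mod_mul, h1, mul_zero, add_zero]
    exact Nat.mod_lt _ (by positivity)
  · rw [fld_zero t n x ha' c hc]
    positivity

/-- every field repeated `q` times -/
theorem enc_rep (t q n : ℕ) (ht : 0 < t) (hq : 0 < q) (f : ℕ → ℕ) :
    enc (q * t) f n * ((2 ^ (t * q) - 1) / (2 ^ t - 1)) = enc t (fun i => f (i / q)) (q * n) := by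
  have h2 : 2 ≤ 2 ^ t := by
    calc 2 = 2 ^ 1 := by norm_num
      _ ≤ 2 ^ t := Nat.pow_le_pow_right (by norm_num) ht
  have hrep : (2 ^ (t * q) - 1) / (2 ^ t - 1) = ∑ j ∈ range q, (2 ^ t) ^ j := by
    rw [pow_mul, ← Nat.geomSum_eq h2 q]
  rw [hrep]
  induction n with
  | zero => simp [enc]
  | succ n ih =>
    rw [enc_succ, add_mul, ih]
    have h3 : q * (n + 1) = q * n + q := by ring
    rw [h3]
    have h4 : enc t (fun i => f (i / q)) (q * n + q) =
        enc t (fun i => f (i / q)) (q * n) +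
          ∑ j ∈ range q, f ((q * n + j) / q) * 2 ^ (t * (q * n + j)) := by
      rw [enc, enc, sum_range_add]
    rw [h4]
    congr 1
    rw [mul_sum]
    refine sum_congr rfl fun j hj => ?_
    have h5 : (q * n + j) / q = n := by
      rw [Nat.mul_add_div hq, Nat.div_eq_of_lt (mem_range.1 hj), add_zero]
    rw [h5, mul_assoc]
    congr 1
    rw [← pow_mul, ← pow_add]
    congr 1
    ring

/-- the shifts that matter for the window `[i0, i0 + L)`, for a table of `n` cells -/
def rel (i0 L n : ℕ) (l : List ℕ) : List ℕ :=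
  l.filter (fun s => Nat.blt i0 (s + n) && Nat.blt s (i0 + L))

/-- the inequality for all fine cells of the block `b` of `2 ^ l` cells; tables `W` (cells) and `M`
(minima), `n` cells, `v` bits per weight, shifts `sl` -/
def chkB (t v l1 l2 q n num den W M : ℕ) (sl : List ℕ) (b : ℕ) : Bool :=
  let l := l1 + l2
  let r := rel (q * (2 ^ l * b)) (q * 2 ^ l) n sl
  let X := den * gsum t M (q * 2 ^ l) (q * (2 ^ l * b)) r
  let Y := num * (spr q t (2 ^ l1) (2 ^ l2) ((W >>> (t * (2 ^ l * b))) &&& (2 ^ (t * 2 ^ l) - 1)) *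
    ((2 ^ (t * q) - 1) / (2 ^ t - 1)))
  Nat.ble (den * (r.length * 2 ^ v)) (2 ^ t) && cmpB t (q * 2 ^ l) X Y

theorem sum_filter_le (l : List ℕ) (p : ℕ → Bool) (f : ℕ → ℕ) :
    ((l.filter p).map f).sum ≤ (l.map f).sum :=
  List.Sublist.sum_le_sum (List.Sublist.map f List.filter_sublist) fun _ _ => Nat.zero_le _

theorem chkB_sound (t v l1 l2 q n num den W M : ℕ) (sl : List ℕ) (b : ℕ) (ht : 0 < t)
    (hq1 : 2 ^ l1 < q) (hq2 : 2 ^ l2 < q) (hden : 0 < den) (hnum : num * 2 ^ v ≤ 2 ^ (t - 1)) (hW : ∀ c, fld t W c < 2 ^ v)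
    (hM : ∀ c, fld t M c < 2 ^ v) (h : chkB t v l1 l2 q n num den W M sl b = true) (c j : ℕ)
    (hc : c / 2 ^ (l1 + l2) = b) (hj : j < q) :
    num * fld t W c ≤ den * (sl.map (fun s => sft t M s (q * c + j))).sum := by
  have hq : 0 < q := by omega
  obtain ⟨l, hl⟩ : ∃ l, l = l1 + l2 := ⟨_, rfl⟩
  have h2l : 0 < 2 ^ l := by positivity
  have h2t : 0 < 2 ^ t := by positivity
  unfold chkB at h
  rw [← hl] at h hc
  simp only [Bool.and_eq_true] at h
  obtain ⟨ha, hb⟩ := h
  have ha' := Nat.le_of_ble_eq_true ha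
  set i0 := q * (2 ^ l * b) with hi0
  set L := q * 2 ^ l with hL
  set r := rel i0 L n sl with hr
  have hsftM : ∀ s i, sft t M s i ≤ 2 ^ v - 1 := by
    intro s i
    unfold sft
    split_ifs
    · have := hM (i - s)
      omega
    · exact Nat.zero_le _
  set W' := (W >>> (t * (2 ^ l * b))) &&& (2 ^ (t * 2 ^ l) - 1) with hW'
  have hW'lt : W' < 2 ^ (t * 2 ^ l) := by
    rw [hW', Nat.and_two_pow_sub_one_eq_mod]
    exact Nat.mod_lt _ (by positivity)
  have hW'f : ∀ m < 2 ^ l, fld t W' m = fld t W (2 ^ l * b + m) := by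
    intro m hm
    unfold fld
    rw [hW', Nat.and_two_pow_sub_one_eq_mod, mod_fld t (2 ^ l) _ m hm, Nat.shiftRight_eq_div_pow,
      Nat.div_div_eq_div_mul, ← pow_add]
    congr 3
    ring
  have hX : den * gsum t M L i0 r =
      enc t (fun i => den * (r.map (fun s => sft t M s (i0 + i))).sum) L := by
    rw [gsum_eq, enc_mul]
  have hlm : 2 ^ l1 * 2 ^ l2 = 2 ^ l := by rw [hl, pow_add]
  have hY : num * (spr q t (2 ^ l1) (2 ^ l2) W' * ((2 ^ (t * q) - 1) / (2 ^ t - 1))) =
      enc t (fun i => num * fld t W (2 ^ l * b + i / q)) L := by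
    rw [spr_field q t (2 ^ l1) (2 ^ l2) W' ht (by positivity) hq1 (by positivity) hq2 (by
      rw [hlm]
      exact hW'lt), hlm, enc_rep t q (2 ^ l) ht hq, enc_mul]
    refine enc_congr _ _ _ _ fun i hi => ?_
    congr 1
    refine hW'f (i / q) ?_
    rw [Nat.div_lt_iff_lt_mul hq, mul_comm]
    exact hi
  have hXb : ∀ i < L, den * (r.map (fun s => sft t M s (i0 + i))).sum < 2 ^ t := by
    intro i _
    rcases Nat.eq_zero_or_pos r.length with h0 | h0
    · have : r = [] := List.eq_nil_of_length_eq_zero h0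
      rw [this]
      simp
    · have h1 := sum_lt_of r (fun s => sft t M s (i0 + i)) (2 ^ v - 1) fun s _ => hsftM s _
      have h2 : 0 < 2 ^ v := by positivity
      have h3 : r.length * (2 ^ v - 1) < r.length * 2 ^ v :=
        Nat.mul_lt_mul_of_pos_left (by omega) h0
      calc den * (r.map (fun s => sft t M s (i0 + i))).sum ≤ den * (r.length * (2 ^ v - 1)) :=
            Nat.mul_le_mul_left _ h1
        _ < den * (r.length * 2 ^ v) := Nat.mul_lt_mul_of_pos_left h3 hden
        _ ≤ 2 ^ t := ha'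
  have hYb : ∀ i < L, num * fld t W (2 ^ l * b + i / q) < 2 ^ (t - 1) := by
    intro i _
    have h1 := hW (2 ^ l * b + i / q)
    rcases Nat.eq_zero_or_pos num with h0 | h0
    · rw [h0, zero_mul]
      positivity
    · exact lt_of_lt_of_le (Nat.mul_lt_mul_of_pos_left h1 h0) hnum
  have h2t' : 2 ^ (t - 1) ≤ 2 ^ t := Nat.pow_le_pow_right (by norm_num) (by omega)
  rw [hX, hY] at hb
  -- the field
  set i := q * (c % 2 ^ l) + j with hi
  have hiL : i < L := by
    have h1 : c % 2 ^ l < 2 ^ l := Nat.mod_lt _ h2l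
    calc i < q * (c % 2 ^ l) + q := by omega
      _ = q * (c % 2 ^ l + 1) := by ring
      _ ≤ q * 2 ^ l := Nat.mul_le_mul_left _ h1
  have key := cmpB_sound t L _ _ ht
    (enc_lt t _ L hXb) (enc_lt t _ L fun i hi => lt_of_lt_of_le (hYb i hi) h2t')
    (fun c hc => by
      have h1 := enc_field t _ L (fun i hi => lt_of_lt_of_le (hYb i hi) h2t') c hc
      unfold fld at h1 ⊢
      rw [h1]
      exact hYb c hc) hb i
  have e1 := enc_field t _ L (fun i hi => lt_of_lt_of_le (hYb i hi) h2t') i hiL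
  have e2 := enc_field t _ L hXb i hiL
  have e1' : fld t (enc t (fun i => num * fld t W (2 ^ l * b + i / q)) L) i =
      num * fld t W (2 ^ l * b + i / q) := e1
  have e2' : fld t (enc t (fun i => den * (r.map (fun s => sft t M s (i0 + i))).sum) L) i =
      den * (r.map (fun s => sft t M s (i0 + i))).sum := e2
  rw [e1', e2'] at key
  have h5 : 2 ^ l * b + i / q = c := by
    have h6 : i / q = c % 2 ^ l := by
      rw [hi, Nat.mul_add_div hq, Nat.div_eq_of_lt hj, add_zero]
    rw [h6, ← hc]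
    exact Nat.div_add_mod c (2 ^ l)
  have h7 : i0 + i = q * c + j := by
    rw [hi0, hi, ← hc]
    have h8 := Nat.div_add_mod c (2 ^ l)
    calc q * (2 ^ l * (c / 2 ^ l)) + (q * (c % 2 ^ l) + j)
        = q * (2 ^ l * (c / 2 ^ l) + c % 2 ^ l) + j := by ring
      _ = q * c + j := by rw [h8]
  rw [h5, h7] at key
  refine key.trans (Nat.mul_le_mul_left _ ?_)
  exact sum_filter_le _ _ _

end Pool.Agent.Lib.H92Q
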