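import Pool.Agent.Lib.H92Q.Tab
import Mathlib.Algebra.Order.Archimedean.Real.Basic

/-!
# From the table to positions: one step of `K` ternary levels, and growth
-/

open Finset

namespace Pool.Agent.Lib.H92Q

/-- double sum over the numbers with `n` ternary digits in `{0, 1}` -/
def dsum (n : ℕ) (f : ℕ → ℕ → ℕ) : ℕ :=
  ((cd n).map (fun D => ((cd n).map (fun E => f D E)).sum)).sum

theorem sum_map_flatMap (l : List ℕ) (g : ℕ → List ℕ) (f : ℕ → ℕ) :
    ((l.flatMap g).map f).sum = (l.map (fun x => ((g x).map f).sum)).sum := by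
  induction l with
  | nil => simp
  | cons a l ih => rw [List.flatMap_cons, List.map_append, List.sum_append, ih, List.map_cons,
      List.sum_cons]

/-- splitting off the last `n` digits -/
theorem cd_add (m n : ℕ) : cd (m + n) = (cd m).flatMap (fun a => (cd n).map (fun b => 3 ^ n * a + b)) := by
  induction n with
  | zero =>
    simp only [cd, pow_zero, one_mul, List.map_cons, add_zero, List.map_nil]
    induction cd m with
    | nil => rfl
    | cons a l ih => rw [List.flatMap_cons, ← ih]; rfl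
  | succ n ih =>
    rw [← add_assoc, cd, ih, List.flatMap_assoc]
    congr 1
    funext a
    rw [cd, List.map_flatMap, List.flatMap_map]
    congr 1
    funext b
    simp only [List.map_cons, List.map_nil, pow_succ]
    congr 1
    · ring
    · congr 1
      ring

theorem dsum_add (m n : ℕ) (f : ℕ → ℕ → ℕ) :
    dsum (m + n) f = dsum m (fun a a' => dsum n (fun b b' => f (3 ^ n * a + b) (3 ^ n * a' + b'))) := by
  have h1 : ∀ g : ℕ → ℕ, ((cd (m + n)).map g).sum =
      ((cd m).map (fun a => ((cd n).map (fun b => g (3 ^ n * a + b))).sum)).sum := by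
    intro g
    rw [cd_add, sum_map_flatMap]
    congr 2
    funext a
    rw [List.map_map]
    rfl
  unfold dsum
  rw [h1]
  congr 2
  funext a
  have h2 : (fun b => ((cd (m + n)).map (fun E => f (3 ^ n * a + b) E)).sum) = fun b =>
      ((cd m).map (fun a' => ((cd n).map (fun b' => f (3 ^ n * a + b) (3 ^ n * a' + b'))).sum)).sum := by
    funext b
    rw [h1]
  rw [h2]
  -- exchange the sums
  have h3 : ∀ (l l' : List ℕ) (F : ℕ → ℕ → ℕ), (l.map (fun b => (l'.map (fun a' => F b a')).sum)).sum =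
      (l'.map (fun a' => (l.map (fun b => F b a')).sum)).sum := by
    intro l l' F
    induction l with
    | nil => simp
    | cons x l ih => simp only [List.map_cons, List.sum_cons, ih, List.sum_map_add]
  exact h3 _ _ _

theorem sum_map_le (l : List ℕ) (f g : ℕ → ℕ) (h : ∀ x ∈ l, f x ≤ g x) :
    (l.map f).sum ≤ (l.map g).sum := by
  induction l with
  | nil => simp
  | cons a l ih =>
    rw [List.map_cons, List.map_cons, List.sum_cons, List.sum_cons]
    have h1 := h a (by simp)
    have h2 := ih fun x hx => h x (by simp [hx])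
    omega

theorem dsum_mono (n : ℕ) (f g : ℕ → ℕ → ℕ) (h : ∀ D ∈ cd n, ∀ E ∈ cd n, f D E ≤ g D E) :
    dsum n f ≤ dsum n g :=
  sum_map_le _ _ _ fun D hD => sum_map_le _ _ _ fun E hE => h D hD E hE

theorem dsum_congr (n : ℕ) (f g : ℕ → ℕ → ℕ) (h : ∀ D E, f D E = g D E) : dsum n f = dsum n g := by
  have h1 : f = g := funext fun D => funext fun E => h D E
  rw [h1]

theorem dsum_mul (n m : ℕ) (f : ℕ → ℕ → ℕ) : m * dsum n f = dsum n (fun D E => m * f D E) := by
  unfold dsum
  rw [← List.sum_map_mul_left]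
  congr 2
  funext D
  rw [← List.sum_map_mul_left]

/-- weights on the integers -/
def wz (t W : ℕ) (c : ℤ) : ℕ := if 0 ≤ c then fld t W c.toNat else 0

/-- What the checker proves about the tables `W` (weights) and `M` (minima). -/
structure Cert (t W M K A q R num den V : ℕ) : Prop where
  rpos : 0 < R
  ineq : ∀ c j, j < 3 ^ K →
    num * fld t W c ≤ den * ((shifts K A q R).map (fun s => sft t M s (3 ^ K * c + j))).sum
  m0 : ∀ c, fld t M c ≤ fld t W c
  m1 : ∀ c, fld t M c ≤ fld t W (c + 1)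
  m2 : ∀ c, fld t M c ≤ fld t W (c + 2)
  mm : ∀ c, fld t M (c + 1) ≤ fld t W c
  mz : fld t M 0 = 0
  bd : ∀ c, fld t W c ≤ V

/-- One step of `K` levels: `δ D` is the drop of the line (or curve) for the descendants with first
coordinate `D`. -/
theorem Cert.step {t W M K A q R num den V : ℕ} (h : Cert t W M K A q R num den V) (δ : ℕ → ℝ)
    (hδ : ∀ D ∈ cd K, (((A * D + (q - 1)) / q : ℕ) : ℝ) - 1 ≤ R * δ D ∧
      R * δ D ≤ (((A * D + (q - 1)) / q : ℕ) : ℝ)) (ν : ℝ) :
    ∃ m : ℕ → ℕ → ℕ, (∀ D ∈ cd K, ∀ E ∈ cd K, ∀ y : ℝ,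
      |y - (3 ^ K * ν - δ D - 2 * E)| ≤ 1 / R → m D E ≤ wz t W ⌊R * y⌋) ∧
      num * wz t W ⌊R * ν⌋ ≤ den * dsum K m := by
  have hR : (0 : ℝ) < R := by exact_mod_cast h.rpos
  rcases lt_or_ge (⌊R * ν⌋) 0 with hneg | hpos
  · refine ⟨fun _ _ => 0, fun _ _ _ _ _ _ => Nat.zero_le _, ?_⟩
    rw [wz, if_neg (by omega)]
    simp
  obtain ⟨c, hc⟩ := Int.eq_ofNat_of_zero_le hpos
  have h3K : (0 : ℝ) < 3 ^ K := by positivity
  -- the fine cell
  have hc1 : (c : ℝ) ≤ R * ν := by
    have := Int.floor_le (R * ν)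
    rw [hc] at this
    exact_mod_cast this
  have hc2 : R * ν < c + 1 := by
    have := Int.lt_floor_add_one (R * ν)
    rw [hc] at this
    exact_mod_cast this
  have hi0 : (0 : ℤ) ≤ ⌊3 ^ K * (R * ν)⌋ := Int.floor_nonneg.2 (by
    have : (0 : ℝ) ≤ c := Nat.cast_nonneg c
    exact mul_nonneg h3K.le (this.trans hc1))
  obtain ⟨i, hi⟩ := Int.eq_ofNat_of_zero_le hi0
  have hi1 : (i : ℝ) ≤ 3 ^ K * (R * ν) := by
    have := Int.floor_le (3 ^ K * (R * ν))
    rw [hi] at this
    exact_mod_cast this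
  have hi2 : 3 ^ K * (R * ν) < i + 1 := by
    have := Int.lt_floor_add_one (3 ^ K * (R * ν))
    rw [hi] at this
    exact_mod_cast this
  have hic1 : 3 ^ K * c ≤ i := by
    have h1 : ((3 ^ K * c : ℕ) : ℝ) < i + 1 := by
      push_cast
      exact lt_of_le_of_lt (mul_le_mul_of_nonneg_left hc1 h3K.le) hi2
    have h2 : 3 ^ K * c < i + 1 := by exact_mod_cast h1
    omega
  have hic2 : i < 3 ^ K * c + 3 ^ K := by
    have h1 : (i : ℝ) < ((3 ^ K * c + 3 ^ K : ℕ) : ℝ) := by
      push_cast
      calc (i : ℝ) ≤ 3 ^ K * (R * ν) := hi1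
        _ < 3 ^ K * (c + 1) := mul_lt_mul_of_pos_left hc2 h3K
        _ = 3 ^ K * c + 3 ^ K := by ring
    exact_mod_cast h1
  refine ⟨fun D E => sft t M (shf A q R D E) i, ?_, ?_⟩
  · intro D hD E _ y hy
    obtain ⟨d1, d2⟩ := hδ D hD
    set s := (A * D + (q - 1)) / q with hs
    have hshf : shf A q R D E = s + 2 * R * E := rfl
    change sft t M (shf A q R D E) i ≤ _
    unfold sft
    split_ifs with hsi
    · rw [hshf] at hsi ⊢
      set p := i - (s + 2 * R * E) with hp
      have hpi : (p : ℝ) = i - (s + 2 * R * E) := by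
        have h1 : p + (s + 2 * R * E) = i := by omega
        have h2 : ((p + (s + 2 * R * E) : ℕ) : ℝ) = i := by exact_mod_cast h1
        push_cast at h2
        linarith
      obtain ⟨y1, y2⟩ := abs_le.1 hy
      have e1 : R * (y - (3 ^ K * ν - δ D - 2 * E)) =
          R * y - (3 ^ K * (R * ν) - R * δ D - 2 * R * E) := by ring
      have y1' : -1 ≤ R * y - (3 ^ K * (R * ν) - R * δ D - 2 * R * E) := by
        rw [← e1]
        have := mul_le_mul_of_nonneg_left y1 hR.le
        have h4 : (R : ℝ) * -(1 / R) = -1 := by field_simp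
        linarith
      have y2' : R * y - (3 ^ K * (R * ν) - R * δ D - 2 * R * E) ≤ 1 := by
        rw [← e1]
        have := mul_le_mul_of_nonneg_left y2 hR.le
        have h4 : (R : ℝ) * (1 / R) = 1 := by field_simp
        linarith
      have l1 : ((p : ℤ) - 1 : ℤ) ≤ ⌊R * y⌋ := by
        rw [Int.le_floor]
        push_cast
        linarith
      have l2 : ⌊R * y⌋ < (p : ℤ) + 3 := by
        rw [Int.floor_lt]
        push_cast
        linarith
      rcases Nat.eq_zero_or_pos p with hp0 | hp0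
      · rw [hp0, h.mz]
        exact Nat.zero_le _
      · have hf0 : 0 ≤ ⌊R * y⌋ := by omega
        rw [wz, if_pos hf0]
        have hcases : ⌊R * y⌋.toNat = p - 1 ∨ ⌊R * y⌋.toNat = p ∨ ⌊R * y⌋.toNat = p + 1 ∨
            ⌊R * y⌋.toNat = p + 2 := by omega
        rcases hcases with e | e | e | e
        · rw [e]
          have := h.mm (p - 1)
          have h5 : p - 1 + 1 = p := by omega
          rwa [h5] at this
        · rw [e]
          exact h.m0 p
        · rw [e]
          exact h.m1 p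
        · rw [e]
          exact h.m2 p
    · exact Nat.zero_le _
  · have h1 := h.ineq c (i - 3 ^ K * c) (by omega)
    have h2 : 3 ^ K * c + (i - 3 ^ K * c) = i := by omega
    rw [h2] at h1
    have h3 : wz t W ⌊R * ν⌋ = fld t W c := by
      rw [wz, if_pos hpos, hc]
      rfl
    rw [h3]
    refine h1.trans (le_of_eq ?_)
    congr 1
    unfold shifts dsum
    rw [sum_map_flatMap]
    congr 2
    funext D
    rw [List.map_map]
    rfl

/-- the positions whose whole neighbourhood of radius `1 / R` has positive weight -/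
def good (t W R : ℕ) (z : ℝ) : Prop := ∀ y : ℝ, |y - z| ≤ 1 / R → 0 < wz t W ⌊R * y⌋

open Classical in
/-- number of the descendants (`n` levels, slope `x`) of the position `ν` that are good -/
noncomputable def ngood (t W R n : ℕ) (x ν : ℝ) : ℕ :=
  dsum n (fun D E => if good t W R (3 ^ n * ν - x * D - 2 * E) then 1 else 0)

theorem wz_le {t W M K A q R num den V : ℕ} (h : Cert t W M K A q R num den V) (c : ℤ) :
    wz t W c ≤ V := by
  unfold wz
  split_ifs
  · exact h.bd _
  · exact Nat.zero_le _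

/-- Growth of the number of good descendants. -/
theorem Cert.growth {t W M K A q R num den V : ℕ} (h : Cert t W M K A q R num den V) (x : ℝ)
    (hx : ∀ D ∈ cd K, (((A * D + (q - 1)) / q : ℕ) : ℝ) - 1 ≤ R * (x * D) ∧
      R * (x * D) ≤ (((A * D + (q - 1)) / q : ℕ) : ℝ)) (k : ℕ) : ∀ ν : ℝ,
    num ^ (k + 1) * wz t W ⌊R * ν⌋ ≤ den ^ (k + 1) * (V * ngood t W R (K * (k + 1)) x ν) := by
  classical
  have hR : (0 : ℝ) < R := by exact_mod_cast h.rpos
  have hR1 : (0 : ℝ) ≤ 1 / R := by positivity
  induction k with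
  | zero =>
    intro ν
    obtain ⟨m, hm, hsum⟩ := h.step (fun D => x * D) hx ν
    rw [zero_add, pow_one, pow_one, mul_one]
    refine hsum.trans (Nat.mul_le_mul_left _ ?_)
    unfold ngood
    rw [dsum_mul]
    refine dsum_mono _ _ _ fun D hD E hE => ?_
    have hmDE := hm D hD E hE
    split_ifs with hg
    · rw [mul_one]
      refine (hmDE (3 ^ K * ν - x * D - 2 * E) (by rw [sub_self, abs_zero]; exact hR1)).trans ?_
      exact wz_le h _
    · rw [mul_zero, Nat.le_zero]
      by_contra hne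
      refine hg fun y hy => ?_
      exact lt_of_lt_of_le (Nat.pos_of_ne_zero hne) (hmDE y hy)
  | succ k ih =>
    intro ν
    obtain ⟨m, hm, hsum⟩ := h.step (fun D => x * D) hx ν
    have h1 : num ^ (k + 1 + 1) * wz t W ⌊R * ν⌋ ≤
        den * dsum K (fun D E => num ^ (k + 1) * wz t W ⌊R * (3 ^ K * ν - x * D - 2 * E)⌋) := by
      calc num ^ (k + 1 + 1) * wz t W ⌊R * ν⌋ = num ^ (k + 1) * (num * wz t W ⌊R * ν⌋) := by ring
        _ ≤ num ^ (k + 1) * (den * dsum K m) := Nat.mul_le_mul_left _ hsum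
        _ = den * (num ^ (k + 1) * dsum K m) := by ring
        _ ≤ _ := by
          refine Nat.mul_le_mul_left _ ?_
          rw [dsum_mul]
          refine dsum_mono _ _ _ fun D hD E hE => Nat.mul_le_mul_left _ ?_
          exact hm D hD E hE _ (by rw [sub_self, abs_zero]; exact hR1)
    refine h1.trans ?_
    have h2 : dsum K (fun D E => num ^ (k + 1) * wz t W ⌊R * (3 ^ K * ν - x * D - 2 * E)⌋) ≤
        dsum K (fun D E => den ^ (k + 1) *
          (V * ngood t W R (K * (k + 1)) x (3 ^ K * ν - x * D - 2 * E))) :=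
      dsum_mono _ _ _ fun D _ E _ => ih _
    refine (Nat.mul_le_mul_left den h2).trans (le_of_eq ?_)
    rw [← dsum_mul, ← dsum_mul]
    have h3 : dsum K (fun D E => ngood t W R (K * (k + 1)) x (3 ^ K * ν - x * D - 2 * E)) =
        ngood t W R (K * (k + 1 + 1)) x ν := by
      unfold ngood
      have h4 : K * (k + 1 + 1) = K + K * (k + 1) := by ring
      rw [h4, dsum_add]
      refine dsum_congr _ _ _ fun D E => dsum_congr _ _ _ fun D' E' => ?_
      have h5 : (3 : ℝ) ^ (K * (k + 1)) * (3 ^ K * ν - x * D - 2 * E) - x * D' - 2 * E' =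
          3 ^ (K + K * (k + 1)) * ν - x * ((3 ^ (K * (k + 1)) * D + D' : ℕ) : ℝ) -
            2 * ((3 ^ (K * (k + 1)) * E + E' : ℕ) : ℝ) := by
        push_cast
        rw [pow_add]
        ring
      rw [h5]
    rw [h3]
    ring

end Pool.Agent.Lib.H92Q
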