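import Mathlib.Algebra.BigOperators.Intervals
import Mathlib.Algebra.Order.BigOperators.Group.Finset
import Mathlib.Data.Nat.Bitwise
import Mathlib.Tactic

/-!
# Packed arithmetic: one big natural number as a table of small numbers

`enc t f n = ∑ c < n, f c * 2 ^ (t * c)`: the table `f` in fields of `t` bits.
-/

open Finset

namespace Pool.Agent.Lib.H92Q

/-- the table `f 0, .., f (n - 1)` in fields of `t` bits -/
def enc (t : ℕ) (f : ℕ → ℕ) (n : ℕ) : ℕ := ∑ c ∈ range n, f c * 2 ^ (t * c)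

theorem enc_zero (t : ℕ) (f : ℕ → ℕ) : enc t f 0 = 0 := by simp [enc]

theorem enc_succ (t : ℕ) (f : ℕ → ℕ) (n : ℕ) :
    enc t f (n + 1) = enc t f n + f n * 2 ^ (t * n) := by
  rw [enc, sum_range_succ]
  rfl

theorem enc_congr (t : ℕ) (f g : ℕ → ℕ) (n : ℕ) (h : ∀ c < n, f c = g c) :
    enc t f n = enc t g n := by
  rw [enc, enc]
  exact sum_congr rfl fun c hc => by rw [h c (mem_range.mp hc)]

theorem enc_add (t : ℕ) (f g : ℕ → ℕ) (n : ℕ) :
    enc t f n + enc t g n = enc t (fun c => f c + g c) n := by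
  rw [enc, enc, enc, ← sum_add_distrib]
  exact sum_congr rfl fun c _ => by ring

theorem enc_mul (t m : ℕ) (f : ℕ → ℕ) (n : ℕ) :
    m * enc t f n = enc t (fun c => m * f c) n := by
  rw [enc, enc, mul_sum]
  exact sum_congr rfl fun c _ => by ring

theorem enc_lt (t : ℕ) (f : ℕ → ℕ) (n : ℕ) (h : ∀ c < n, f c < 2 ^ t) :
    enc t f n < 2 ^ (t * n) := by
  induction n with
  | zero => simp [enc]
  | succ n ih =>
    rw [enc_succ]
    have h1 := ih fun c hc => h c (by omega)
    have h2 := h n (by omega)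
    have h3 : 2 ^ (t * (n + 1)) = 2 ^ t * 2 ^ (t * n) := by
      rw [← pow_add]
      congr 1
      ring
    rw [h3]
    calc enc t f n + f n * 2 ^ (t * n) < 2 ^ (t * n) + f n * 2 ^ (t * n) := by omega
      _ = (f n + 1) * 2 ^ (t * n) := by ring
      _ ≤ 2 ^ t * 2 ^ (t * n) := Nat.mul_le_mul_right _ h2

/-- the fields of a table -/
theorem enc_field (t : ℕ) (f : ℕ → ℕ) (n : ℕ) (h : ∀ c < n, f c < 2 ^ t) (c : ℕ) (hc : c < n) :
    enc t f n / 2 ^ (t * c) % 2 ^ t = f c := by
  induction n with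
  | zero => omega
  | succ n ih =>
    rw [enc_succ]
    rcases Nat.lt_or_ge c n with h1 | h1
    · have h2 : 2 ^ (t * n) = 2 ^ (t * c) * (2 ^ t * 2 ^ (t * (n - c - 1))) := by
        rw [← pow_add, ← pow_add]
        congr 1
        obtain ⟨d, rfl⟩ : ∃ d, n = c + 1 + d := ⟨n - c - 1, by omega⟩
        have : c + 1 + d - c - 1 = d := by omega
        rw [this]
        ring
      have h3 : enc t f n + f n * 2 ^ (t * n) =
          enc t f n + 2 ^ (t * c) * (2 ^ t * (f n * 2 ^ (t * (n - c - 1)))) := by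
        rw [h2]
        ring
      rw [h3, Nat.add_mul_div_left _ _ (by positivity), Nat.add_mul_mod_self_left]
      exact ih (fun c hc => h c (by omega)) h1
    · obtain rfl : c = n := by omega
      have h4 := enc_lt t f c fun c hc => h c (by omega)
      rw [Nat.add_mul_div_right _ _ (by positivity), Nat.div_eq_of_lt h4, zero_add]
      exact Nat.mod_eq_of_lt (h c (by omega))

/-- every number is the table of its fields -/
theorem enc_digits (t n x : ℕ) (hx : x < 2 ^ (t * n)) :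
    enc t (fun c => x / 2 ^ (t * c) % 2 ^ t) n = x := by
  have key : ∀ n, enc t (fun c => x / 2 ^ (t * c) % 2 ^ t) n = x % 2 ^ (t * n) := by
    intro n
    induction n with
    | zero => simp [enc, Nat.mod_one]
    | succ n ih =>
      rw [enc_succ, ih]
      have h3 : 2 ^ (t * (n + 1)) = 2 ^ (t * n) * 2 ^ t := by
        rw [← pow_add]
        congr 1
      rw [h3, Nat.mod_mul]
      ring
  rw [key, Nat.mod_eq_of_lt hx]

theorem land_split (t x a b : ℕ) (ha : a < 2 ^ t) :
    x &&& (a + b * 2 ^ t) = (x &&& a) + (x / 2 ^ t &&& b) * 2 ^ t := by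
  have hxa : x &&& a < 2 ^ t := lt_of_le_of_lt Nat.and_le_right ha
  apply Nat.eq_of_testBit_eq
  intro i
  rw [Nat.testBit_and, add_comm a, add_comm (x &&& a), mul_comm b, mul_comm (x / 2 ^ t &&& b),
    Nat.testBit_two_pow_mul_add b ha, Nat.testBit_two_pow_mul_add _ hxa]
  split_ifs with h
  · rw [Nat.testBit_and]
  · rw [Nat.testBit_and, Nat.testBit_div_two_pow]
    congr 2
    omega

/-- masks -/
def mask (s t n : ℕ) : ℕ := (2 ^ s - 1) * ((2 ^ (t * n) - 1) / (2 ^ t - 1))

theorem mask_eq (s t n : ℕ) (ht : 0 < t) : mask s t n = enc t (fun _ => 2 ^ s - 1) n := by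
  rw [mask, enc, ← mul_sum]
  congr 1
  have h2 : 2 ≤ 2 ^ t := by
    calc 2 = 2 ^ 1 := by norm_num
      _ ≤ 2 ^ t := Nat.pow_le_pow_right (by norm_num) ht
  rw [pow_mul, ← Nat.geomSum_eq h2 n]
  exact sum_congr rfl fun c _ => by rw [pow_mul]

/-- a mask of fields of `s ≤ t` bits selects the low `s` bits of every field of `t` bits -/
theorem land_mask (s t n x : ℕ) (ht : 0 < t) (hst : s ≤ t) :
    x &&& mask s t n = enc t (fun c => x / 2 ^ (t * c) % 2 ^ s) n := by
  rw [mask_eq s t n ht]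
  have hs : 2 ^ s - 1 < 2 ^ t := by
    have h1 : 2 ^ s ≤ 2 ^ t := Nat.pow_le_pow_right (by norm_num) hst
    have h2 : 0 < 2 ^ s := by positivity
    omega
  induction n with
  | zero => simp [enc]
  | succ n ih =>
    rw [enc_succ, enc_succ, land_split (t * n) x _ _ (enc_lt t _ n fun c _ => hs), ih,
      Nat.and_two_pow_sub_one_eq_mod]

/-- the number with ones at the places `0, s, .., (n - 1) s` -/
def rep (s n : ℕ) : ℕ := (2 ^ (s * n) - 1) / (2 ^ s - 1)

theorem mul_rep (s n x : ℕ) (hs : 0 < s) : x * rep s n = enc s (fun _ => x) n := by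
  have h2 : 2 ≤ 2 ^ s := by
    calc 2 = 2 ^ 1 := by norm_num
      _ ≤ 2 ^ s := Nat.pow_le_pow_right (by norm_num) hs
  rw [rep, enc, pow_mul, ← Nat.geomSum_eq h2 n, mul_sum]
  exact sum_congr rfl fun c _ => by rw [pow_mul]

theorem mod_div_mod (y a b n : ℕ) (h : a + b ≤ n) :
    y % 2 ^ n / 2 ^ a % 2 ^ b = y / 2 ^ a % 2 ^ b := by
  have h7 : 2 ^ n = 2 ^ a * (2 ^ b * 2 ^ (n - a - b)) := by
    rw [← pow_add, ← pow_add]
    congr 1
    omega
  rw [h7, Nat.mod_mul_right_div_self, Nat.mod_mul_right_mod]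

/-- spreading by one multiplication: in each of `n` slots of `q t m` bits, the `m ≤ q - 1` fields of
`t` bits get the stride `q t` -/
def spm (q t m n x : ℕ) : ℕ := (x * rep ((q - 1) * t) m) &&& mask t (q * t) (m * n)

theorem spm_slot (q t m : ℕ) (ht : 0 < t) (hm : m < q) (v : ℕ) (hv : v < 2 ^ (t * m)) (c : ℕ)
    (hc : c < m) :
    v * rep ((q - 1) * t) m / 2 ^ (q * t * c) % 2 ^ t = v / 2 ^ (t * c) % 2 ^ t := by
  have hq1 : 0 < q - 1 := by omega
  have hs : 0 < (q - 1) * t := Nat.mul_pos hq1 ht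
  rw [mul_rep _ _ _ hs]
  have hle : t * m ≤ (q - 1) * t := by
    rw [mul_comm]
    exact Nat.mul_le_mul_right _ (by omega)
  have hv' : v < 2 ^ ((q - 1) * t) := lt_of_lt_of_le hv (Nat.pow_le_pow_right (by norm_num) hle)
  have h1 := enc_field ((q - 1) * t) (fun _ => v) m (fun _ _ => hv') c hc
  have h2 : q * t * c = (q - 1) * t * c + t * c := by
    obtain ⟨p, rfl⟩ : ∃ p, q = p + 1 := ⟨q - 1, by omega⟩
    have : p + 1 - 1 = p := by omega
    rw [this]
    ring
  rw [h2, pow_add, ← Nat.div_div_eq_div_mul]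
  have h3 : t * c + t ≤ (q - 1) * t := by
    calc t * c + t = (c + 1) * t := by ring
      _ ≤ (q - 1) * t := Nat.mul_le_mul_right _ (by omega)
  rw [← mod_div_mod _ _ _ _ h3, h1]

theorem spm_lt (q t m : ℕ) (ht : 0 < t) (hm0 : 0 < m) (hm : m < q) (v : ℕ)
    (hv : v < 2 ^ (t * m)) :
    v * rep ((q - 1) * t) m < 2 ^ (q * t * m) := by
  have hs : 0 < (q - 1) * t := Nat.mul_pos (by omega) ht
  rw [mul_rep _ _ _ hs]
  have hle : t * m ≤ (q - 1) * t := by
    rw [mul_comm]
    exact Nat.mul_le_mul_right _ (by omega)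
  refine lt_of_lt_of_le (enc_lt _ _ _ fun _ _ => lt_of_lt_of_le hv
    (Nat.pow_le_pow_right (by norm_num) hle)) (Nat.pow_le_pow_right (by norm_num) ?_)
  exact Nat.mul_le_mul_right _ (Nat.mul_le_mul_right _ (by omega))

/-- the result of `spm` -/
theorem spm_eq (q t m n : ℕ) (ht : 0 < t) (hm0 : 0 < m) (hm : m < q) (f : ℕ → ℕ)
    (hf : ∀ g < n, f g < 2 ^ (t * m)) :
    spm q t m n (enc (q * t * m) f n) =
      enc (q * t) (fun c => f (c / m) / 2 ^ (t * (c % m)) % 2 ^ t) (m * n) := by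
  have hqt : t ≤ q * t := Nat.le_mul_of_pos_left t (by omega)
  have h1 : enc (q * t * m) f n * rep ((q - 1) * t) m =
      enc (q * t * m) (fun g => f g * rep ((q - 1) * t) m) n := by
    rw [mul_comm, enc_mul]
    exact enc_congr _ _ _ _ fun c _ => mul_comm _ _
  rw [spm, h1, land_mask t (q * t) (m * n) _ (by omega) hqt]
  refine enc_congr _ _ _ _ fun c hc => ?_
  set g := c / m with hg
  set r := c % m with hr
  have hcg : c = m * g + r := (Nat.div_add_mod c m).symm
  have hr' : r < m := Nat.mod_lt _ hm0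
  have hgn : g < n := by
    rw [hg, Nat.div_lt_iff_lt_mul hm0, mul_comm]
    exact hc
  have h2 := enc_field (q * t * m) (fun g => f g * rep ((q - 1) * t) m) n
    (fun g hg => spm_lt q t m ht hm0 hm (f g) (hf g hg)) g hgn
  have h3 : q * t * c = q * t * m * g + q * t * r := by
    rw [hcg]
    ring
  have h4 : q * t * r + t ≤ q * t * m := by
    calc q * t * r + t ≤ q * t * r + q * t := by omega
      _ = q * t * (r + 1) := by ring
      _ ≤ q * t * m := Nat.mul_le_mul_left _ hr'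
  rw [h3, pow_add, ← Nat.div_div_eq_div_mul, ← mod_div_mod _ _ _ _ h4, h2]
  exact spm_slot q t m ht hm (f g) (hf g hgn) r hr'

/-- two stages: `m * n` fields of `t` bits get the stride `q t` (`m, n < q`) -/
def spr (q t m n x : ℕ) : ℕ := spm q t m n (spm q (t * m) n 1 x)

theorem spr_field (q t m n x : ℕ) (ht : 0 < t) (hm0 : 0 < m) (hm : m < q) (hn0 : 0 < n)
    (hn : n < q) (hx : x < 2 ^ (t * (m * n))) :
    spr q t m n x = enc (q * t) (fun c => x / 2 ^ (t * c) % 2 ^ t) (m * n) := by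
  have h1 : x = enc (q * (t * m) * n) (fun _ => x) 1 := by
    simp [enc]
  have h2 : spm q (t * m) n 1 x = enc (q * (t * m)) (fun c => x / 2 ^ (t * m * c) % 2 ^ (t * m)) n := by
    conv_lhs => rw [h1]
    rw [spm_eq q (t * m) n 1 (by positivity) hn0 hn (fun _ => x) (fun g _ => by
      rw [mul_assoc]
      exact hx), mul_one]
    refine enc_congr _ _ _ _ fun c hc => ?_
    rw [Nat.mod_eq_of_lt hc]
  rw [spr, h2, ← mul_assoc, spm_eq q t m n ht hm0 hm _ fun g _ => Nat.mod_lt _ (by positivity)]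
  refine enc_congr _ _ _ _ fun c hc => ?_
  have h3 : t * (c % m) + t ≤ t * m := by
    calc t * (c % m) + t = t * (c % m + 1) := by ring
      _ ≤ t * m := Nat.mul_le_mul_left _ (Nat.mod_lt _ hm0)
  rw [mod_div_mod _ _ _ _ h3, Nat.div_div_eq_div_mul, ← pow_add]
  congr 3
  have := Nat.div_add_mod c m
  calc t * m * (c / m) + t * (c % m) = t * (m * (c / m) + c % m) := by ring
    _ = t * c := by rw [this]

/-- comparison of two tables by one subtraction -/
theorem enc_le_of_sub (t n : ℕ) (ht : 0 < t) (x y : ℕ → ℕ) (hx : ∀ c < n, x c < 2 ^ t)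
    (hy : ∀ c < n, y c < 2 ^ (t - 1)) (hle : enc t y n ≤ enc t x n)
    (hg : ((enc t x n - enc t y n) >>> (t - 1)) &&& mask 1 t n = 0) :
    ∀ c < n, y c ≤ x c := by
  set Z := enc t x n - enc t y n with hZ
  have hZt : Z < 2 ^ (t * n) := lt_of_le_of_lt (Nat.sub_le _ _) (enc_lt t x n hx)
  have hZe := enc_digits t n Z hZt
  have h2t : 2 ^ t = 2 ^ (t - 1) * 2 := by
    rw [← pow_succ]
    congr 1
    omega
  have hz : ∀ c < n, Z / 2 ^ (t * c) % 2 ^ t < 2 ^ (t - 1) := by
    intro c hc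
    rw [land_mask 1 t n _ ht ht] at hg
    have h1 : Z >>> (t - 1) / 2 ^ (t * c) % 2 ^ 1 = 0 := by
      have h2 := enc_field t (fun c => Z >>> (t - 1) / 2 ^ (t * c) % 2 ^ 1) n (fun c _ =>
        lt_of_lt_of_le (Nat.mod_lt _ (by positivity)) (Nat.pow_le_pow_right (by norm_num) ht)) c hc
      rw [hg] at h2
      simpa using h2.symm
    rw [Nat.shiftRight_eq_div_pow, Nat.div_div_eq_div_mul, mul_comm (2 ^ (t - 1)),
      ← Nat.div_div_eq_div_mul, pow_one] at h1
    rw [h2t, Nat.mod_mul, h1, mul_zero, add_zero]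
    exact Nat.mod_lt _ (by positivity)
  have hsum : enc t x n = enc t (fun c => y c + Z / 2 ^ (t * c) % 2 ^ t) n := by
    rw [← enc_add, hZe]
    omega
  intro c hc
  have h1 := enc_field t x n hx c hc
  have h2 := enc_field t (fun c => y c + Z / 2 ^ (t * c) % 2 ^ t) n (fun c hc => by
    have := hy c hc
    have := hz c hc
    omega) c hc
  rw [hsum, h2] at h1
  omega

end Pool.Agent.Lib.H92Q
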