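import Pool.Agent.Lib.H92Q.Chk
import Pool.Agent.Lib.H92Q.Dat

/-!
# The table and its minima
-/

namespace Pool.Agent.Lib.H92Q

/-- the numbers with `K` ternary digits in `{0, 1}` -/
def cd : ℕ → List ℕ
  | 0 => [0]
  | K + 1 => (cd K).flatMap (fun x => [3 * x, 3 * x + 1])

/-- the shift of the descendant `(D, E)`: `ceil (A D/q) + 2 R E` -/
def shf (A q R D E : ℕ) : ℕ := (A * D + (q - 1)) / q + 2 * R * E

/-- all shifts -/
def shifts (K A q R : ℕ) : List ℕ := (cd K).flatMap (fun D => (cd K).map (fun E => shf A q R D E))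

/-- the blocks (of `s` bits) put together -/
def asm (s : ℕ) (l : List ℕ) : ℕ := l.foldr (fun b acc => b + acc <<< s) 0

/-- minimum field by field, for fields of `t` bits with top bit `0` -/
def pmin (t n a b : ℕ) : ℕ :=
  let F := ((((a + mask 1 t n <<< (t - 1)) - b) >>> (t - 1)) &&& mask 1 t n) * (2 ^ t - 1)
  (b &&& F) + (a - (a &&& F))

/-- the table -/
def tabW : ℕ := asm 65536 dat

/-- minima of four consecutive weights `c - 1, c, c + 1, c + 2` -/
def tabM : ℕ :=
  pmin 16 200704 (pmin 16 200704 tabW (tabW >>> 16)) (pmin 16 200704 (tabW >>> 32) (tabW <<< 16))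

/-- the check of one block -/
def ok (b : ℕ) : Bool :=
  chkB 16 10 5 5 243 199913 3 2 tabW tabM sl b

theorem sl_eq : sl = shifts 5 281725234848 1000000 59049 := by decide +kernel

/-- the check of the `n` blocks from `b` on -/
def okn : ℕ → ℕ → Bool
  | _, 0 => true
  | b, n + 1 => ok b && okn (b + 1) n

theorem okn_sound (n : ℕ) : ∀ b, okn b n = true → ∀ i, b ≤ i → i < b + n → ok i = true := by
  induction n with
  | zero =>
    intro b _ i h1 h2
    omega
  | succ n ih =>
    intro b h i h1 h2
    rw [okn, Bool.and_eq_true] at h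
    rcases Nat.eq_or_lt_of_le h1 with h3 | h3
    · rw [← h3]
      exact h.1
    · exact ih (b + 1) h.2 i h3 (by omega)

end Pool.Agent.Lib.H92Q
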