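import Pool.Agent.Lib.H92Q.Lin
import Pool.Agent.Lib.H92Q.B0
import Pool.Agent.Lib.H92Q.B1
import Pool.Agent.Lib.H92Q.B2
import Pool.Agent.Lib.H92Q.B3
import Pool.Agent.Lib.H92Q.B4
import Pool.Agent.Lib.H92Q.B5
import Pool.Agent.Lib.H92Q.B6

/-!
# The certificate
-/

namespace Pool.Agent.Lib.H92Q

set_option maxRecDepth 100000

theorem ok_all (b : ℕ) (hb : b < 196) : ok b = true := by
  rcases Nat.lt_or_ge b 28 with h0 | h0
  · exact okn_sound 28 0 okn0 b (by omega) h0
  rcases Nat.lt_or_ge b 56 with h1 | h1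
  · exact okn_sound 28 28 okn1 b h0 h1
  rcases Nat.lt_or_ge b 84 with h2 | h2
  · exact okn_sound 28 56 okn2 b h1 h2
  rcases Nat.lt_or_ge b 112 with h3 | h3
  · exact okn_sound 28 84 okn3 b h2 h3
  rcases Nat.lt_or_ge b 140 with h4 | h4
  · exact okn_sound 28 112 okn4 b h3 h4
  rcases Nat.lt_or_ge b 168 with h5 | h5
  · exact okn_sound 28 140 okn5 b h4 h5
  · exact okn_sound 28 168 okn6 b h5 hb

theorem fld_shr (t W s c : ℕ) : fld t (W >>> (t * s)) c = fld t W (c + s) := by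
  unfold fld
  rw [Nat.shiftRight_eq_div_pow, Nat.div_div_eq_div_mul, ← pow_add]
  congr 3
  ring

theorem shr_lt (W s n : ℕ) (h : W < 2 ^ n) : W >>> s < 2 ^ n :=
  lt_of_le_of_lt (by rw [Nat.shiftRight_eq_div_pow]; exact Nat.div_le_self _ _) h

/-- The certificate from the checks. -/
theorem mkCert (t v n l1 l2 nc W M K A q R num den : ℕ) (l : List ℕ) (ht : 0 < t) (hv : v < t)
    (hR : 0 < R) (hK1 : 2 ^ l1 < 3 ^ K) (hK2 : 2 ^ l2 < 3 ^ K) (hden : 0 < den)
    (hnum : num * 2 ^ v ≤ 2 ^ (t - 1)) (hl : l = shifts K A q R)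
    (hW : bndB t v n W = true) (hM : bndB t v n M = true) (h0 : cmpB t n W M = true)
    (h1 : cmpB t n (W >>> (t * 1)) M = true) (h2 : cmpB t n (W >>> (t * 2)) M = true)
    (h3 : cmpB t n W (M >>> (t * 1)) = true) (h4 : Nat.beq (M &&& (2 ^ t - 1)) 0 = true)
    (hall : ∀ b, b * 2 ^ (l1 + l2) < n →
      chkB t v l1 l2 (3 ^ K) nc num den W M l b = true) :
    Cert t W M K A q R num den (2 ^ v) := by
  obtain ⟨w1, w2⟩ := bndB_sound t v n W ht hv.le hW
  obtain ⟨m1, m2⟩ := bndB_sound t v n M ht hv.le hM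
  have hvt : 2 ^ v ≤ 2 ^ (t - 1) := Nat.pow_le_pow_right (by norm_num) (by omega)
  have mb : ∀ c < n, fld t M c < 2 ^ (t - 1) := fun c _ => lt_of_lt_of_le (m2 c) hvt
  refine ⟨hR, ?_, ?_, ?_, ?_, ?_, ?_, fun c => (w2 c).le⟩
  · intro c j hj
    rcases Nat.lt_or_ge c n with hc | hc
    · have h := hall (c / 2 ^ (l1 + l2)) (lt_of_le_of_lt (Nat.div_mul_le_self _ _) hc)
      have key := chkB_sound t v l1 l2 (3 ^ K) nc num den W M l (c / 2 ^ (l1 + l2)) ht hK1 hK2
        hden hnum w2 m2 h c j rfl hj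
      rw [← hl]
      exact key
    · rw [fld_zero t n W w1 c hc, mul_zero]
      exact Nat.zero_le _
  · intro c
    exact cmpB_sound t n W M ht w1 m1 mb h0 c
  · intro c
    have h := cmpB_sound t n (W >>> (t * 1)) M ht (shr_lt _ _ _ w1) m1 mb h1 c
    rwa [fld_shr] at h
  · intro c
    have h := cmpB_sound t n (W >>> (t * 2)) M ht (shr_lt _ _ _ w1) m1 mb h2 c
    rwa [fld_shr] at h
  · intro c
    have h := cmpB_sound t n W (M >>> (t * 1)) ht w1 (shr_lt _ _ _ m1) (fun c _ => by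
      rw [fld_shr]
      exact lt_of_lt_of_le (m2 _) hvt) h3 c
    rwa [fld_shr] at h
  · have h := Nat.eq_of_beq_eq_true h4
    rw [Nat.and_two_pow_sub_one_eq_mod] at h
    unfold fld
    rw [mul_zero, pow_zero, Nat.div_one]
    exact h

theorem tabW_bnd : bndB 16 10 200704 tabW = true := by decide +kernel

theorem tabM_bnd : bndB 16 10 200704 tabM = true := by decide +kernel

theorem cmp0 : cmpB 16 200704 tabW tabM = true := by decide +kernel

theorem cmp1 : cmpB 16 200704 (tabW >>> (16 * 1)) tabM = true := by decide +kernel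

theorem cmp2 : cmpB 16 200704 (tabW >>> (16 * 2)) tabM = true := by decide +kernel

theorem cmp3 : cmpB 16 200704 tabW (tabM >>> (16 * 1)) = true := by decide +kernel

theorem tabM_zero : Nat.beq (tabM &&& (2 ^ 16 - 1)) 0 = true := by decide +kernel

theorem ok_all' (b : ℕ) (hb : b * 2 ^ (5 + 5) < 200704) :
    chkB 16 10 5 5 (3 ^ 5) 199913 3 2 tabW tabM sl b = true := by
  have h1 := ok_all b (by omega)
  unfold ok at h1
  have h2 : (3 : ℕ) ^ 5 = 243 := by norm_num
  rw [h2]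
  exact h1

attribute [local irreducible] tabW tabM sl shifts cmpB bndB chkB

theorem cert : Cert 16 tabW tabM 5 281725234848 1000000 59049 3 2 (2 ^ 10) := by
  refine mkCert 16 10 200704 5 5 199913 tabW tabM 5 281725234848 1000000 59049 3 2 sl ?_ ?_ ?_ ?_
    ?_ ?_ ?_ sl_eq tabW_bnd tabM_bnd cmp0 cmp1 cmp2 cmp3 tabM_zero ok_all'
  all_goals norm_num

end Pool.Agent.Lib.H92Q
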